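import Pool.Agent.Helper90_DRC.GLO

/-!
# MP_64bfc7_al: reduced two-sided distributive rings and relations over the centre

Let `A` be reduced, left and right distributive.  For a maximal right ideal `M` the elements which
are killed by an element outside `M` form a completely prime ideal `P`, the domain `A / P` has a
division ring of quotients `D`, and the local ring `V` of `A / P` at `M` is a total valuation ring
of `D`.  If the words in `s a a`, `s a s a` satisfy a relation over the centre of `D` then
two different words have the same value up to a central element `z`; inverting `z` or its inverse in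
`V` one gets `s⁻¹ a s ^ 3` in `V`.  If `A / P` lies in a subalgebra of `D` with few generators over
the uncountable centre then every element of `D` is algebraic over the centre (Amitsur's argument,
combined with the fact that maximal right ideals of distributive rings are two-sided with a division
ring as factor ring).
-/

set_option autoImplicit false

universe u

namespace Pool.Agent.Results.MP_64bfc7_al.CentralRelations

open MulOpposite
open Pool.Agent.Helper93_DR Pool.Agent.Helper90_DRC

/-- The left ideals of `A` and the right ideals of `A` form distributive lattices. -/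
def TwoSidedDistributive (A : Type u) [Ring A] : Prop :=
  (∀ a b c : Submodule A A, a ⊓ (b ⊔ c) = a ⊓ b ⊔ a ⊓ c) ∧
  (∀ a b c : Submodule Aᵐᵒᵖ A, a ⊓ (b ⊔ c) = a ⊓ b ⊔ a ⊓ c)

/-- `s` is neither a left nor a right zero divisor. -/
def Regular {A : Type u} [Ring A] (s : A) : Prop :=
  (∀ x : A, x * s = 0 → x = 0) ∧ (∀ x : A, s * x = 0 → x = 0)

/-- The right and the left Ore condition for the set of regular elements. -/
def OreConditions (A : Type u) [Ring A] : Prop :=
  (∀ a s : A, Regular s → ∃ b t : A, Regular t ∧ a * t = s * b) ∧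
  (∀ a s : A, Regular s → ∃ b t : A, Regular t ∧ t * a = b * s)

/-- `x` and `y` satisfy a non-zero non-commutative polynomial over the centre of `D`. -/
def CentrallyDependent {D : Type u} [DivisionRing D] (x y : D) : Prop :=
  ∃ f : MonoidAlgebra (Subring.center D) (FreeMonoid (Fin 2)), f ≠ 0 ∧
    MonoidAlgebra.lift (Subring.center D) D (FreeMonoid (Fin 2)) (FreeMonoid.lift ![x, y]) f = 0

theorem rel_of_lift {D : Type u} [DivisionRing D] {x y : D} (h : CentrallyDependent x y) :
    Rel x y := by
  obtain ⟨f, hf0, hf⟩ := h
  rw [MonoidAlgebra.lift_apply, Finsupp.sum] at hf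
  have hne : f.coeff.support.Nonempty := by
    rw [Finsupp.support_nonempty_iff]
    intro h0
    apply hf0
    exact MonoidAlgebra.coeff_eq_zero.1 h0
  refine ⟨f.coeff.support.map FreeMonoid.toList.toEmbedding,
    fun l => (f.coeff (FreeMonoid.ofList l) : D), by simpa using hne, ?_, ?_, ?_⟩
  · intro l hl
    obtain ⟨w, hw, rfl⟩ := Finset.mem_map.1 hl
    intro h
    exact (Finsupp.mem_support_iff.1 hw) (Subtype.ext h)
  · intro l _ d
    exact ((Subring.mem_center_iff.mp (f.coeff (FreeMonoid.ofList l)).2) d).symm
  · rw [Finset.sum_map, ← hf]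
    apply Finset.sum_congr rfl
    intro w _
    rw [FreeMonoid.lift_apply]
    rfl

/-- Let `A` be a reduced ring which is left and right distributive.  Suppose that for every division
ring `D` and every ring homomorphism `φ : A → D` such that all elements of `D` have the form
`φ u * (φ v)⁻¹`, one of the following holds, where `Z` is the centre of `D`:

* any two elements of `φ A` satisfy a non-zero non-commutative polynomial over `Z`;
* `Z` is uncountable and `φ A` is contained in a `Z`-subalgebra of `D` which is generated by fewer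
  than `|Z|` elements.

Then `a s ^ 3` is in `s A` and `s ^ 3 a` is in `A s` for all `a`, `s`, and the regular elements of
`A` satisfy the right and the left Ore condition. -/
theorem result {A : Type u} [Ring A] (hred : ∀ x : A, x * x = 0 → x = 0)
    (hA : TwoSidedDistributive A)
    (hD : ∀ (D : Type u) [DivisionRing D] (φ : A →+* D),
      (∀ q : D, ∃ u v : A, q = φ u * (φ v)⁻¹) →
      (∀ x y : A, CentrallyDependent (φ x) (φ y)) ∨
      (Cardinal.aleph0 < Cardinal.mk (Subring.center D) ∧ ∃ S : Set D,
        Cardinal.mk S < Cardinal.mk (Subring.center D) ∧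
        ∀ x : A, φ x ∈ Algebra.adjoin (Subring.center D) S)) :
    ((∀ a s : A, ∃ b, a * s ^ 3 = s * b) ∧ (∀ a s : A, ∃ b, s ^ 3 * a = b * s)) ∧
    OreConditions A := by
  obtain ⟨hL, hR⟩ := hA
  have hr := rd_of_right A hR
  have hl := rd_of_left A hL
  have hop : RD Aᵐᵒᵖᵐᵒᵖ := by
    intro u v
    obtain ⟨x, y, c, d, h1, h2, h3⟩ := hr u.unop.unop v.unop.unop
    refine ⟨op (op x), op (op y), op (op c), op (op d), ?_, ?_, ?_⟩
    · rw [← op_add, ← op_add, h1]
      rfl
    · exact congrArg (fun z => op (op z)) h2
    · exact congrArg (fun z => op (op z)) h3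
  have hrel : ∀ (D : Type u) [DivisionRing D] (f : A →+* D),
      (∀ q : D, ∃ b t : A, f t ≠ 0 ∧ q = (f t)⁻¹ * f b) →
      (∀ q : D, ∃ b t : A, f t ≠ 0 ∧ q = f b * (f t)⁻¹) → ∀ x y : A, Rel (f x) (f y) := by
    intro D _ f h1 h2 x y
    have h3 : ∀ q : D, ∃ u v : A, q = f u * (f v)⁻¹ := by
      intro q
      obtain ⟨b, t, -, h⟩ := h2 q
      exact ⟨b, t, h⟩
    rcases hD D f h3 with h | ⟨hC, S, hS, hgen⟩
    · exact rel_of_lift (h x y)
    · exact rel_of_few hr D f h1 hC S hS hgen x y
  have h1 : ∀ a s : A, ∃ b, a * s ^ 3 = s * b := glo hred hr hl hrel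
  have hred' : ∀ x : Aᵐᵒᵖ, x * x = 0 → x = 0 := by
    intro x hx
    have h : x.unop * x.unop = 0 := by
      have := congrArg unop hx
      simpa using this
    exact unop_injective (hred _ h)
  have h2 : ∀ a s : A, ∃ b, s ^ 3 * a = b * s := by
    intro a s
    obtain ⟨b, hb⟩ := glo hred' hl hop
      (fun D _ f g1 g2 x y => op_hyp hrel D f g1 g2 x y) (op a) (op s)
    refine ⟨b.unop, ?_⟩
    have := congrArg unop hb
    simpa using this
  have hreg : ∀ s : A, Regular s → Regular (s ^ 3) := by
    rintro s ⟨g1, g2⟩
    constructor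
    · intro x hx
      apply g1
      apply g1
      apply g1
      have e : x * s * s * s = x * s ^ 3 := by noncomm_ring
      rw [e, hx]
    · intro x hx
      apply g2
      apply g2
      apply g2
      have e : s * (s * (s * x)) = s ^ 3 * x := by noncomm_ring
      rw [e, hx]
  refine ⟨⟨h1, h2⟩, ?_, ?_⟩
  · intro a s hs
    obtain ⟨b, hb⟩ := h1 a s
    exact ⟨b, s ^ 3, hreg s hs, hb⟩
  · intro a s hs
    obtain ⟨b, hb⟩ := h2 a s
    exact ⟨b, s ^ 3, hreg s hs, hb⟩

/-- A reduced, left and right distributive algebra over an uncountable field `k` which is generated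
over its centre by fewer than `|k|` elements has a classical ring of quotients. -/
theorem generated_over_centre (k : Type u) {A : Type u} [Field k] [Ring A] [Algebra k A]
    (hk : Cardinal.aleph0 < Cardinal.mk k) (hred : ∀ x : A, x * x = 0 → x = 0)
    (hA : TwoSidedDistributive A)
    (S : Set A) (hS : Cardinal.mk S < Cardinal.mk k)
    (hgen : Algebra.adjoin (Subring.center A) S = ⊤) :
    ((∀ a s : A, ∃ b, a * s ^ 3 = s * b) ∧ (∀ a s : A, ∃ b, s ^ 3 * a = b * s)) ∧
    OreConditions A := by
  refine result hred hA ?_
  intro D _ φ hφ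
  right
  have hcen : ∀ z : A, (∀ w, z * w = w * z) → ∀ q : D, q * φ z = φ z * q := by
    intro z hz q
    obtain ⟨u, v, rfl⟩ := hφ q
    have h1 : ∀ w, Commute (φ z) (φ w) := by
      intro w
      show φ z * φ w = φ w * φ z
      rw [← map_mul, hz, map_mul]
    exact ((h1 u).mul_right (h1 v).inv_right₀).symm.eq
  have hle : Cardinal.mk k ≤ Cardinal.mk (Subring.center D) := by
    refine Cardinal.mk_le_of_injective (f := fun c : k =>
      (⟨φ (algebraMap k A c), Subring.mem_center_iff.mpr
        (hcen _ (fun w => Algebra.commutes c w))⟩ : Subring.center D)) ?_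
    intro c c' h
    exact (φ.comp (algebraMap k A)).injective (congrArg Subtype.val h)
  refine ⟨lt_of_lt_of_le hk hle, φ '' S, ?_, ?_⟩
  · exact lt_of_le_of_lt Cardinal.mk_image_le (lt_of_lt_of_le hS hle)
  · intro x
    have hx : x ∈ Algebra.adjoin (Subring.center A) S := by rw [hgen]; trivial
    induction hx using Algebra.adjoin_induction with
    | mem x hx => exact Algebra.subset_adjoin ⟨x, hx, rfl⟩
    | algebraMap r =>
      have h1 : φ (r : A) ∈ Subring.center D :=
        Subring.mem_center_iff.mpr (hcen _ (fun w => ((Subring.mem_center_iff.mp r.2) w).symm))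
      exact (Algebra.adjoin (Subring.center D) (φ '' S)).algebraMap_mem
        (⟨φ (r : A), h1⟩ : Subring.center D)
    | add x y _ _ hx hy => rw [map_add]; exact add_mem hx hy
    | mul x y _ _ hx hy => rw [map_mul]; exact mul_mem hx hy

end Pool.Agent.Results.MP_64bfc7_al.CentralRelations
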