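import Pool.Agent.Helper47_DR.Right

/-!
# MP_64bfc7_al: two-sided distributive rings with few crossing points

If `(1 - a p) x = s w` and `p = r l s^(j+1)` (`l` central) then `t = p x` satisfies
`a t in s A_M` at all maximal ideals `M` except some of those with `a r l s^(j+2) A_M = s A_M`, and
the exceptional sets of two different pairs `(l, j)` are disjoint.  So an infinite tree of candidates
for `t` grows, and if there are fewer maximal ideals than branches then one of the candidates is
good everywhere.
-/

set_option autoImplicit false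

namespace Pool.Agent.Results.MP_64bfc7_al.FewCrossings

open MulOpposite
open Pool.Agent.Helper93_DR Pool.Agent.Helper47_DR

universe u

/-- Let `A` be a left and right distributive ring, let `C` be a set of central units of `A` with
pairwise invertible differences (`C` may be empty) and `κ = max(ℵ₀, |C|)`.  Suppose

(1) for every regular `s` there is a regular `r` such that fewer than `κ` maximal ideals `M` without
`r` contain an element of the form `x s - s x - 1`, or for all `c` there are a regular `x` with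
`(1 - c s) x` in `s A` and a regular `x` with `x (1 - s c)` in `A s`;

(2) for all `a` and all regular `s`, fewer than `κ ^ ℵ₀` maximal ideals `M` with `s ∈ M` satisfy
`a s^2 z = s (z + m)` for some `z ∉ M` and `m ∈ M`, and fewer than `κ ^ ℵ₀` satisfy
`z s^2 a = (z + m) s` for some `z ∉ M` and `m ∈ M`.

Then the regular elements of `A` satisfy the right and the left Ore condition. -/
theorem result {A : Type u} [Ring A]
    (hL : ∀ a b c : Submodule A A, a ⊓ (b ⊔ c) = a ⊓ b ⊔ a ⊓ c)
    (hR : ∀ a b c : Submodule Aᵐᵒᵖ A, a ⊓ (b ⊔ c) = a ⊓ b ⊔ a ⊓ c)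
    (C : Set A) (hC : ∀ c ∈ C, IsUnit c ∧ ∀ x, c * x = x * c)
    (hC' : ∀ c ∈ C, ∀ c' ∈ C, c ≠ c' → IsUnit (c - c'))
    (h1 : ∀ s : A, ((∀ x : A, x * s = 0 → x = 0) ∧ (∀ x : A, s * x = 0 → x = 0)) →
      (∃ r : A, ((∀ x : A, x * r = 0 → x = 0) ∧ (∀ x : A, r * x = 0 → x = 0)) ∧
        Cardinal.mk {M : Ideal A // M.IsMaximal ∧ r ∉ M ∧ ∃ x, x * s - s * x - 1 ∈ M}
          < max Cardinal.aleph0 (Cardinal.mk C)) ∨
      ((∀ c : A, ∃ x w : A, ((∀ y : A, y * x = 0 → y = 0) ∧ (∀ y : A, x * y = 0 → y = 0)) ∧
          (1 - c * s) * x = s * w) ∧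
        (∀ c : A, ∃ x w : A, ((∀ y : A, y * x = 0 → y = 0) ∧ (∀ y : A, x * y = 0 → y = 0)) ∧
          x * (1 - s * c) = w * s)))
    (h2 : ∀ a s : A, ((∀ x : A, x * s = 0 → x = 0) ∧ (∀ x : A, s * x = 0 → x = 0)) →
      Cardinal.mk {M : Ideal A // M.IsMaximal ∧ s ∈ M ∧
          ∃ z, z ∉ M ∧ ∃ m ∈ M, a * s ^ 2 * z = s * (z + m)}
        < (max Cardinal.aleph0 (Cardinal.mk C)) ^ Cardinal.aleph0 ∧
      Cardinal.mk {M : Ideal A // M.IsMaximal ∧ s ∈ M ∧
          ∃ z, z ∉ M ∧ ∃ m ∈ M, z * s ^ 2 * a = (z + m) * s}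
        < (max Cardinal.aleph0 (Cardinal.mk C)) ^ Cardinal.aleph0) :
    (∀ a s : A, ((∀ x : A, x * s = 0 → x = 0) ∧ (∀ x : A, s * x = 0 → x = 0)) →
      ∃ b t : A, ((∀ x : A, x * t = 0 → x = 0) ∧ (∀ x : A, t * x = 0 → x = 0)) ∧
        a * t = s * b) ∧
    (∀ a s : A, ((∀ x : A, x * s = 0 → x = 0) ∧ (∀ x : A, s * x = 0 → x = 0)) →
      ∃ b t : A, ((∀ x : A, x * t = 0 → x = 0) ∧ (∀ x : A, t * x = 0 → x = 0)) ∧
        t * a = b * s) := by
  have hr := rd_of_right A hR
  have hl := rd_of_left A hL
  constructor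
  · intro a s hs
    -- maximal right ideals are maximal left ideals
    have hid : ∀ M : Set A, MR M → ∃ I : Ideal A, I.IsMaximal ∧ (I : Set A) = M :=
      fun M hM => hM.ideal hr
    have h2s : ∀ c, Cardinal.mk (Cro c s)
        < (max Cardinal.aleph0.{u} (Cardinal.mk C)) ^ Cardinal.aleph0.{u} := by
      intro c
      refine lt_of_le_of_lt ?_ (h2 c s hs).1
      choose g hg using fun M : Cro c s => hid M.1 M.2.1
      refine Cardinal.mk_le_of_injective (f := fun M : Cro c s => (⟨g M, (hg M).1, ?_, ?_⟩ :
        {M : Ideal A // M.IsMaximal ∧ s ∈ M ∧ ∃ z, z ∉ M ∧ ∃ m ∈ M, c * s ^ 2 * z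
          = s * (z + m)})) ?_
      · have h3 : s ∈ (g M : Set A) := by rw [(hg M).2]; exact M.2.2.1
        exact h3
      · obtain ⟨z, hz, m, hm, e⟩ := M.2.2.2
        refine ⟨z, ?_, m, ?_, e⟩
        · intro hh
          apply hz
          rw [← (hg M).2]
          exact hh
        · have h3 : m ∈ (g M : Set A) := by rw [(hg M).2]; exact hm
          exact h3
      · intro M M' hMM
        apply Subtype.ext
        rw [← (hg M).2, ← (hg M').2]
        have : g M = g M' := congrArg Subtype.val hMM
        rw [this]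
    rcases h1 s hs with ⟨r, hrr, hr1⟩ | ⟨hc1, _⟩
    · refine right_final hr C hC hC' r hrr s hs (Or.inl ?_) h2s a
      refine lt_of_le_of_lt ?_ hr1
      choose g hg using fun M : Wey s r => hid M.1 M.2.1
      refine Cardinal.mk_le_of_injective (f := fun M : Wey s r => (⟨g M, (hg M).1, ?_, ?_⟩ :
        {M : Ideal A // M.IsMaximal ∧ r ∉ M ∧ ∃ x, x * s - s * x - 1 ∈ M})) ?_
      · intro hh
        apply M.2.2.1
        rw [← (hg M).2]
        exact hh
      · obtain ⟨x, hx⟩ := M.2.2.2
        refine ⟨x, ?_⟩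
        have h3 : x * s - s * x - 1 ∈ (g M : Set A) := by rw [(hg M).2]; exact hx
        exact h3
      · intro M M' hMM
        apply Subtype.ext
        rw [← (hg M).2, ← (hg M').2]
        have : g M = g M' := congrArg Subtype.val hMM
        rw [this]
    · exact right_final hr C hC hC' 1 Reg.one s hs (Or.inr hc1) h2s a
  · intro a s hs
    have hid : ∀ M : Set Aᵐᵒᵖ, MR M → ∃ I : Ideal A, I.IsMaximal ∧ (I : Set A) = {a | op a ∈ M} :=
      fun M hM => hM.ideal_op
    let C1 : Set Aᵐᵒᵖ := unop ⁻¹' C
    have hcard : Cardinal.mk C1 = Cardinal.mk C := by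
      refine Cardinal.mk_congr ?_
      exact (opEquiv.symm).subtypeEquiv (fun x => Iff.rfl)
    have hC1 : ∀ c ∈ C1, IsUnit c ∧ ∀ x, c * x = x * c := by
      intro c hc
      obtain ⟨h3, h4⟩ := hC _ hc
      refine ⟨?_, ?_⟩
      · have := h3.op
        rwa [op_unop] at this
      · intro x
        apply unop_injective
        rw [unop_mul, unop_mul]
        exact (h4 _).symm
    have hC1' : ∀ c ∈ C1, ∀ c' ∈ C1, c ≠ c' → IsUnit (c - c') := by
      intro c hc c' hc' hne
      have := (hC' _ hc _ hc' (fun hh => hne (unop_injective hh))).op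
      rwa [op_sub, op_unop, op_unop] at this
    have hs' : Reg (op s) := reg_op.2 hs
    have hinj : ∀ M M' : Set Aᵐᵒᵖ, {a : A | op a ∈ M} = {a : A | op a ∈ M'} → M = M' := by
      intro M M' hMM
      ext x
      obtain ⟨y, rfl⟩ := op_surjective x
      have : y ∈ {a : A | op a ∈ M} ↔ y ∈ {a : A | op a ∈ M'} := by rw [hMM]
      exact this
    have h2s : ∀ c, Cardinal.mk (Cro c (op s))
        < (max Cardinal.aleph0.{u} (Cardinal.mk C1)) ^ Cardinal.aleph0.{u} := by
      intro c
      rw [hcard]
      refine lt_of_le_of_lt ?_ (h2 c.unop s hs).2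
      choose g hg using fun M : Cro c (op s) => hid M.1 M.2.1
      refine Cardinal.mk_le_of_injective (f := fun M : Cro c (op s) => (⟨g M, (hg M).1, ?_, ?_⟩ :
        {M : Ideal A // M.IsMaximal ∧ s ∈ M ∧ ∃ z, z ∉ M ∧ ∃ m ∈ M, z * s ^ 2 * c.unop
          = (z + m) * s})) ?_
      · have h3 : s ∈ (g M : Set A) := by rw [(hg M).2]; exact M.2.2.1
        exact h3
      · obtain ⟨z, hz, m, hm, e⟩ := M.2.2.2
        refine ⟨z.unop, ?_, m.unop, ?_, ?_⟩
        · intro hh
          apply hz
          have h3 : z.unop ∈ (g M : Set A) := hh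
          rw [(hg M).2] at h3
          exact h3
        · have h3 : m.unop ∈ (g M : Set A) := by
            rw [(hg M).2]
            exact hm
          exact h3
        · have h3 := congrArg unop e
          rw [unop_mul, unop_mul, unop_pow, unop_op, unop_mul, unop_add, unop_op] at h3
          rw [mul_assoc]
          exact h3
      · intro M M' hMM
        apply Subtype.ext
        apply hinj
        rw [← (hg M).2, ← (hg M').2]
        have : g M = g M' := congrArg Subtype.val hMM
        rw [this]
    have hfin : ∃ b t : Aᵐᵒᵖ, Reg t ∧ op a * t = op s * b := by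
      rcases h1 s hs with ⟨r, hrr, hr1⟩ | ⟨_, hc1⟩
      · refine right_final hl C1 hC1 hC1' (op r) (reg_op.2 hrr) (op s) hs' (Or.inl ?_) h2s (op a)
        rw [hcard]
        refine lt_of_le_of_lt ?_ hr1
        choose g hg using fun M : Wey (op s) (op r) => hid M.1 M.2.1
        refine Cardinal.mk_le_of_injective (f := fun M : Wey (op s) (op r) =>
          (⟨g M, (hg M).1, ?_, ?_⟩ :
          {M : Ideal A // M.IsMaximal ∧ r ∉ M ∧ ∃ x, x * s - s * x - 1 ∈ M})) ?_
        · intro hh
          apply M.2.2.1
          have h3 : r ∈ (g M : Set A) := hh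
          rw [(hg M).2] at h3
          exact h3
        · obtain ⟨x, hx⟩ := M.2.2.2
          refine ⟨-x.unop, ?_⟩
          have h3 : -x.unop * s - s * -x.unop - 1 ∈ (g M : Set A) := by
            rw [(hg M).2]
            show op (-x.unop * s - s * -x.unop - 1) ∈ M.1
            have e : op (-x.unop * s - s * -x.unop - 1) = x * op s - op s * x - 1 := by
              apply unop_injective
              simp
              abel
            rw [e]
            exact hx
          exact h3
        · intro M M' hMM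
          apply Subtype.ext
          apply hinj
          rw [← (hg M).2, ← (hg M').2]
          have : g M = g M' := congrArg Subtype.val hMM
          rw [this]
      · refine right_final hl C1 hC1 hC1' 1 Reg.one (op s) hs' (Or.inr ?_) h2s (op a)
        intro c
        obtain ⟨x, w, hx, e⟩ := hc1 c.unop
        refine ⟨op x, op w, reg_op.2 hx, ?_⟩
        apply unop_injective
        simpa using e
    obtain ⟨b, t, ht, e⟩ := hfin
    refine ⟨b.unop, t.unop, ?_, ?_⟩
    · have h3 : op t.unop = t := op_unop t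
      rw [← h3] at ht
      exact reg_op.1 ht
    · have := congrArg unop e
      simpa using this

end Pool.Agent.Results.MP_64bfc7_al.FewCrossings
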