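import Pool.Agent.Helper78_DR2.FSP

/-!
# MP_64bfc7_al: two-sided distributive rings with polynomial relations have a classical ring of
quotients

Let `A` be a two-sided distributive algebra over a commutative ring `K` in which any two elements
satisfy a non-commutative polynomial whose coefficients generate an ideal of `K` that contains an
element acting injectively on `A`.  Then `a s ^ 3` lies in `s A` for all `a` and all regular `s`.
This covers all rings with a polynomial identity (whose coefficients generate the unit ideal) and all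
torsion-free algebras over a commutative domain without free subalgebras.

If `a s ^ 3` is not in `s A`, there is a maximal right ideal `M` with `s < a s ^ 3` at `M` (order of
divisibility in the local ring).  The words in `s a a` and `s a s a` have pairwise different values
above `s ^ 2`; in the relation two terms `c W`, `c' W'` have the same minimal value, and the
completely prime ideal `P = {x : c' ^ n x < c ^ n for all n}` has the property that `W` and `W'` have
the same value at `P`; hence `a s ^ 2` lies in `s A` at `P`, and `a s ^ 3` lies in `s A` at `M`.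
The proof (theorem FS+) is due to helper90.
-/

set_option autoImplicit false

namespace Pool.Agent.Results.MP_64bfc7_al.PolynomialRelations

open Finset MulOpposite
open Pool.Agent.Helper93_DR
open Pool.Agent.Helper78_DR2

theorem lift_val {A : Type*} [Ring A] (a s : A) (w : FreeMonoid (Fin 2)) :
    FreeMonoid.lift ![s * a * a, s * a * (s * a)] w = wval a s (FreeMonoid.toList w) := by
  induction w using FreeMonoid.inductionOn' with
  | one => rfl
  | of_mul x w ih =>
    rw [map_mul, ih, FreeMonoid.lift_eval_of]
    have : FreeMonoid.toList (FreeMonoid.of x * w) = x :: FreeMonoid.toList w := rfl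
    rw [this, wval]
    have hx : x = 0 ∨ x = 1 := by
      have := x.2
      rcases x with ⟨i, hi⟩
      interval_cases i
      · left; rfl
      · right; rfl
    rcases hx with rfl | rfl
    · simp
    · simp

theorem lift_val_op {A : Type*} [Ring A] (a s : A) (l : List (Fin 2)) :
    wval (op a) (op s) l
      = op (FreeMonoid.lift ![a * a * s, a * s * (a * s)] (FreeMonoid.ofList l.reverse)) := by
  induction l with
  | nil => rfl
  | cons x l ih =>
    rw [wval, ih, List.reverse_cons]
    have e : FreeMonoid.ofList (l.reverse ++ [x])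
        = FreeMonoid.ofList l.reverse * FreeMonoid.of x := rfl
    rw [e, map_mul, FreeMonoid.lift_eval_of, op_mul]
    congr 1
    have hx : x = 0 ∨ x = 1 := by
      have := x.2
      rcases x with ⟨i, hi⟩
      interval_cases i
      · left; rfl
      · right; rfl
    rcases hx with rfl | rfl
    · simp [mul_assoc]
    · simp [mul_assoc]

/-- one-sided form -/
theorem one_sided {K : Type*} [CommRing K] {B : Type*} [Ring B] [Algebra K B] (h : RD B) (a s : B)
    (hs : ∀ x, s * x = 0 → x = 0) (F : Finset (List (Fin 2))) (c e : List (Fin 2) → K)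
    (hsum : ∑ w ∈ F, c w • wval a s w = 0)
    (hreg : ∀ z : B, (∑ w ∈ F, c w * e w) • z = 0 → z = 0) : ∃ b, a * s ^ 3 = s * b := by
  refine fsp_local h a s hs ?_
  intro M hM
  have e1 : ∑ w ∈ F, algebraMap K B (c w) * algebraMap K B (e w)
      = algebraMap K B (∑ w ∈ F, c w * e w) := by
    rw [map_sum]
    exact Finset.sum_congr rfl (fun w _ => (map_mul _ _ _).symm)
  refine ⟨F, fun w => algebraMap K B (c w), fun w => algebraMap K B (e w), ?_, ?_, ?_, ?_⟩
  · intro w x
    exact Algebra.commutes _ _
  · intro x
    rw [e1]
    exact Algebra.commutes _ _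
  · refine ⟨1, hM.one, ?_⟩
    rw [mul_one, ← hsum]
    exact Finset.sum_congr rfl (fun w _ => (Algebra.smul_def _ _).symm)
  · rintro x ⟨t, ht, h1⟩
    refine ⟨t, ht, ?_⟩
    apply hreg
    rw [Algebra.smul_def, ← mul_assoc, ← e1]
    exact h1

theorem span_sum {K : Type*} [CommRing K] {ι : Type*} (f : ι →₀ K) (k : K)
    (hk : k ∈ Ideal.span (Set.range f)) : ∃ r : ι → K, k = ∑ w ∈ f.support, f w * r w := by
  classical
  obtain ⟨r, hr⟩ := Finsupp.mem_ideal_span_range_iff_exists_finsupp.1 hk
  refine ⟨r, ?_⟩
  rw [← hr, Finsupp.sum]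
  have h1 : ∑ w ∈ r.support ∪ f.support, r w * f w = ∑ w ∈ r.support, r w * f w := by
    symm
    apply Finset.sum_subset Finset.subset_union_left
    intro w _ hw
    rw [Finsupp.notMem_support_iff.1 hw, zero_mul]
  have h2 : ∑ w ∈ r.support ∪ f.support, r w * f w = ∑ w ∈ f.support, r w * f w := by
    symm
    apply Finset.sum_subset Finset.subset_union_right
    intro w _ hw
    rw [Finsupp.notMem_support_iff.1 hw, mul_zero]
  rw [← h1, h2]
  exact Finset.sum_congr rfl (fun w _ => mul_comm _ _)

/-- Let `A` be a left and right distributive ring and an algebra over a commutative ring `K`.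
Suppose that any two elements `x`, `y` of `A` satisfy a relation `f(x,y) = 0`, where `f` is a
non-commutative polynomial over `K` whose coefficients generate an ideal of `K` which contains an
element acting injectively on `A`.  Then `a s ^ 3` is in `s A` and `s ^ 3 a` is in `A s` for all `a`
and all regular `s`, and the regular elements of `A` satisfy the right and the left Ore
condition. -/
theorem result {K : Type*} [CommRing K] {A : Type*} [Ring A] [Algebra K A]
    (hL : ∀ a b c : Submodule A A, a ⊓ (b ⊔ c) = a ⊓ b ⊔ a ⊓ c)
    (hR : ∀ a b c : Submodule Aᵐᵒᵖ A, a ⊓ (b ⊔ c) = a ⊓ b ⊔ a ⊓ c)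
    (hrel : ∀ x y : A, ∃ f : MonoidAlgebra K (FreeMonoid (Fin 2)),
      MonoidAlgebra.lift K A (FreeMonoid (Fin 2)) (FreeMonoid.lift ![x, y]) f = 0 ∧
      ∃ k ∈ Ideal.span (Set.range f.coeff), ∀ z : A, k • z = 0 → z = 0) :
    ((∀ a s : A, (∀ x : A, s * x = 0 → x = 0) → ∃ b, a * s ^ 3 = s * b) ∧
      (∀ a s : A, (∀ x : A, x * s = 0 → x = 0) → ∃ b, s ^ 3 * a = b * s)) ∧
    (∀ a s : A, ((∀ x : A, x * s = 0 → x = 0) ∧ (∀ x : A, s * x = 0 → x = 0)) →
      ∃ b t : A, ((∀ x : A, x * t = 0 → x = 0) ∧ (∀ x : A, t * x = 0 → x = 0)) ∧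
        a * t = s * b) ∧
    (∀ a s : A, ((∀ x : A, x * s = 0 → x = 0) ∧ (∀ x : A, s * x = 0 → x = 0)) →
      ∃ b t : A, ((∀ x : A, x * t = 0 → x = 0) ∧ (∀ x : A, t * x = 0 → x = 0)) ∧
        t * a = b * s) := by
  have hr := rd_of_right A hR
  have hl := rd_of_left A hL
  have h1 : ∀ a s : A, (∀ x : A, s * x = 0 → x = 0) → ∃ b, a * s ^ 3 = s * b := by
    intro a s hs
    obtain ⟨f, hf, k, hk, hreg⟩ := hrel (s * a * a) (s * a * (s * a))
    obtain ⟨r, hr1⟩ := span_sum f.coeff k hk
    rw [MonoidAlgebra.lift_apply, Finsupp.sum] at hf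
    refine one_sided (K := K) hr a s hs (f.coeff.support.map FreeMonoid.toList.toEmbedding)
      (fun w => f.coeff (FreeMonoid.ofList w)) (fun w => r (FreeMonoid.ofList w)) ?_ ?_
    · rw [Finset.sum_map, ← hf]
      apply Finset.sum_congr rfl
      intro w _
      rw [lift_val]
      simp
    · intro z hz
      apply hreg
      rw [Finset.sum_map] at hz
      rw [hr1]
      exact hz
  have h2 : ∀ a s : A, (∀ x : A, x * s = 0 → x = 0) → ∃ b, s ^ 3 * a = b * s := by
    intro a s hs
    obtain ⟨f, hf, k, hk, hreg⟩ := hrel (a * a * s) (a * s * (a * s))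
    obtain ⟨r, hr1⟩ := span_sum f.coeff k hk
    rw [MonoidAlgebra.lift_apply, Finsupp.sum] at hf
    obtain ⟨E, hE⟩ : ∃ E : FreeMonoid (Fin 2) ↪ List (Fin 2),
        ∀ w, FreeMonoid.ofList (E w).reverse = w := by
      refine ⟨⟨fun w => (FreeMonoid.toList w).reverse, ?_⟩, ?_⟩
      · intro w w' hw
        exact FreeMonoid.toList.injective (List.reverse_injective hw)
      · intro w
        show FreeMonoid.ofList ((FreeMonoid.toList w).reverse).reverse = w
        rw [List.reverse_reverse]
        rfl
    obtain ⟨b, hb⟩ := one_sided (K := K) hl (op a) (op s)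
      (by
        intro x hx
        have h3 : x.unop * s = 0 := by
          have := congrArg unop hx
          simpa using this
        have h4 := hs _ h3
        exact unop_injective h4)
      (f.coeff.support.map E)
      (fun w => f.coeff (FreeMonoid.ofList w.reverse)) (fun w => r (FreeMonoid.ofList w.reverse))
      (by
        rw [Finset.sum_map]
        have h3 : op (∑ w ∈ f.coeff.support, f.coeff w •
            FreeMonoid.lift ![a * a * s, a * s * (a * s)] w) = 0 := by rw [hf, op_zero]
        rw [← h3, Finset.op_sum]
        apply Finset.sum_congr rfl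
        intro w _
        rw [lift_val_op, hE, op_smul])
      (by
        intro z hz
        rw [Finset.sum_map] at hz
        have h3 : ∑ x ∈ f.coeff.support, f.coeff (FreeMonoid.ofList (E x).reverse) *
            r (FreeMonoid.ofList (E x).reverse) = k := by
          rw [hr1]
          apply Finset.sum_congr rfl
          intro w _
          rw [hE]
        rw [h3] at hz
        have h4 : k • z.unop = 0 := by
          have := congrArg unop hz
          simpa using this
        exact unop_injective (hreg _ h4))
    refine ⟨b.unop, ?_⟩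
    have := congrArg unop hb
    simpa using this
  have hreg : ∀ s : A, ((∀ x : A, x * s = 0 → x = 0) ∧ (∀ x : A, s * x = 0 → x = 0)) →
      ((∀ x : A, x * s ^ 3 = 0 → x = 0) ∧ (∀ x : A, s ^ 3 * x = 0 → x = 0)) := by
    rintro s ⟨g1, g2⟩
    constructor
    · intro x hx
      apply g1
      apply g1
      apply g1
      rw [mul_assoc, mul_assoc, ← pow_two, ← pow_succ', hx]
    · intro x hx
      apply g2
      apply g2
      apply g2
      rw [← mul_assoc, ← mul_assoc, ← pow_two, ← pow_succ, hx]
  refine ⟨⟨h1, h2⟩, ?_, ?_⟩
  · intro a s hs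
    obtain ⟨b, hb⟩ := h1 a s hs.2
    exact ⟨b, s ^ 3, hreg s hs, hb⟩
  · intro a s hs
    obtain ⟨b, hb⟩ := h2 a s hs.1
    exact ⟨b, s ^ 3, hreg s hs, hb⟩

end Pool.Agent.Results.MP_64bfc7_al.PolynomialRelations
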