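import Pool.Agent.Helper4_DQ.Core

/-!
# MP_64bfc7_al: two-sided distributive rings with many pairwise regular differences

Let `A` be left and right distributive and let `C` be an infinite subset of `A` with pairwise
regular differences.  If `A` has no family of nonzero right ideals indexed by `C` with pairwise zero
intersections then `A` has a classical ring of quotients.  In particular (`algebra_case`) this holds
for every left and right distributive algebra `A` over an infinite field `K` with `dim_K A < |K|`.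

For regular `s` and any `a` write `x + y = 1`, `a x = s c`, `s y = a d`.  All the elements
`x + d l` lie in `(sA : a)`.  Every zero divisor lies in a completely prime ideal which contains no
regular element, and such an ideal contains at most one of the `x + d l`, `l` in `C`; so the
annihilators of the `x + d l` are independent.
-/

set_option autoImplicit false

universe u v

namespace Pool.Agent.Results.MP_64bfc7_al.RegularDifferences

open MulOpposite
open Pool.Agent.Helper93_DR Pool.Agent.Helper4_DQ

theorem nr_of_lattice {A : Type u} [Ring A] {ι : Type v}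
    (h : ∀ f : ι → Submodule Aᵐᵒᵖ A, (∀ i j, i ≠ j → f i ⊓ f j = ⊥) → ∃ i, f i = ⊥) :
    NR ι A := by
  rintro ⟨w, hw, hw'⟩
  obtain ⟨i, hi⟩ := h (fun i => Submodule.span Aᵐᵒᵖ {w i}) (by
    intro i j hij
    rw [eq_bot_iff]
    rintro p ⟨h1, h2⟩
    obtain ⟨r, hr⟩ := Submodule.mem_span_singleton.1 h1
    obtain ⟨r', hr'⟩ := Submodule.mem_span_singleton.1 h2
    have e1 : w i * r.unop = p := hr
    have e2 : w j * r'.unop = p := hr'
    have := hw' i j hij r.unop r'.unop (by rw [e1, e2])
    rw [e1] at this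
    exact this)
  apply hw i
  have h1 : w i ∈ Submodule.span Aᵐᵒᵖ {w i} := Submodule.mem_span_singleton_self _
  have hi' : Submodule.span Aᵐᵒᵖ {w i} = ⊥ := hi
  rw [hi'] at h1
  exact h1

/-- Let `A` be left and right distributive and let `C` be an infinite subset of `A` such that
`c - c'` is regular for all distinct `c`, `c'` in `C`.  If `A` has no family of nonzero right ideals
indexed by `C` with pairwise zero intersections, then the regular elements of `A` satisfy the right
and the left Ore condition. -/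
theorem result {A : Type*} [Ring A]
    (hL : ∀ a b c : Submodule A A, a ⊓ (b ⊔ c) = a ⊓ b ⊔ a ⊓ c)
    (hR : ∀ a b c : Submodule Aᵐᵒᵖ A, a ⊓ (b ⊔ c) = a ⊓ b ⊔ a ⊓ c)
    (C : Set A) (hinf : C.Infinite)
    (hC : ∀ c ∈ C, ∀ c' ∈ C, c ≠ c' →
      (∀ x : A, x * (c - c') = 0 → x = 0) ∧ (∀ x : A, (c - c') * x = 0 → x = 0))
    (hfam : ∀ f : C → Submodule Aᵐᵒᵖ A, (∀ i j, i ≠ j → f i ⊓ f j = ⊥) → ∃ i, f i = ⊥) :
    (∀ a s : A, ((∀ x : A, x * s = 0 → x = 0) ∧ (∀ x : A, s * x = 0 → x = 0)) →
      ∃ b t : A, ((∀ x : A, x * t = 0 → x = 0) ∧ (∀ x : A, t * x = 0 → x = 0)) ∧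
        a * t = s * b) ∧
    (∀ a s : A, ((∀ x : A, x * s = 0 → x = 0) ∧ (∀ x : A, s * x = 0 → x = 0)) →
      ∃ b t : A, ((∀ x : A, x * t = 0 → x = 0) ∧ (∀ x : A, t * x = 0 → x = 0)) ∧
        t * a = b * s) := by
  have hr := rd_of_right A hR
  have hl := rd_of_left A hL
  have e : (unop ⁻¹' C : Set Aᵐᵒᵖ) ≃ C :=
    { toFun := fun i => ⟨unop i.1, i.2⟩
      invFun := fun i => ⟨op i.1, i.2⟩
      left_inv := fun i => rfl
      right_inv := fun i => rfl }
  have hinf' : (unop ⁻¹' C : Set Aᵐᵒᵖ).Infinite := by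
    rw [← Set.infinite_coe_iff] at hinf ⊢
    exact e.infinite_iff.2 hinf
  have h3 := nr_of_lattice hfam
  have hC' : ∀ c ∈ C, ∀ c' ∈ C, c ≠ c' → Reg (c - c') := hC
  have h4 : OreR Aᵐᵒᵖ :=
    oreR_inf hl (rd_opop hr) _ hinf' (diff_op hC') (nr_op (nl_of_nr hl h3))
  exact ⟨oreR_inf hr hl C hinf hC' h3, fun a s hs => oreL_of_op h4 a s hs⟩

/-- The case of algebras over an infinite field `K` with `dim_K A < |K|`. -/
theorem algebra_case (K : Type v) (A : Type u) [Field K] [Infinite K] [Ring A] [Algebra K A]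
    (hL : ∀ a b c : Submodule A A, a ⊓ (b ⊔ c) = a ⊓ b ⊔ a ⊓ c)
    (hR : ∀ a b c : Submodule Aᵐᵒᵖ A, a ⊓ (b ⊔ c) = a ⊓ b ⊔ a ⊓ c)
    (hdim : Cardinal.lift.{v} (Module.rank K A) < Cardinal.lift.{u} (Cardinal.mk K)) :
    (∀ a s : A, ((∀ x : A, x * s = 0 → x = 0) ∧ (∀ x : A, s * x = 0 → x = 0)) →
      ∃ b t : A, ((∀ x : A, x * t = 0 → x = 0) ∧ (∀ x : A, t * x = 0 → x = 0)) ∧
        a * t = s * b) ∧
    (∀ a s : A, ((∀ x : A, x * s = 0 → x = 0) ∧ (∀ x : A, s * x = 0 → x = 0)) →
      ∃ b t : A, ((∀ x : A, x * t = 0 → x = 0) ∧ (∀ x : A, t * x = 0 → x = 0)) ∧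
        t * a = b * s) := by
  rcases subsingleton_or_nontrivial A with hA | hA
  · exact ⟨fun a s _ => ⟨0, 0, ⟨fun x _ => Subsingleton.elim _ _,
      fun x _ => Subsingleton.elim _ _⟩, Subsingleton.elim _ _⟩,
      fun a s _ => ⟨0, 0, ⟨fun x _ => Subsingleton.elim _ _,
      fun x _ => Subsingleton.elim _ _⟩, Subsingleton.elim _ _⟩⟩
  · have hinj : Function.Injective (algebraMap K A) := (algebraMap K A).injective
    have hcard : Cardinal.lift.{v} (Cardinal.mk (Set.range (algebraMap K A)))
        = Cardinal.lift.{u} (Cardinal.mk K) := Cardinal.mk_range_eq_of_injective hinj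
    refine result hL hR (Set.range (algebraMap K A)) (Set.infinite_range_of_injective hinj) ?_ ?_
    · rintro _ ⟨k, rfl⟩ _ ⟨k', rfl⟩ hne
      have h1 : k - k' ≠ 0 := by
        intro h
        apply hne
        rw [sub_eq_zero.1 h]
      rw [← map_sub]
      have h2 : algebraMap K A (k - k') * algebraMap K A (k - k')⁻¹ = 1 := by
        rw [← map_mul, mul_inv_cancel₀ h1, map_one]
      have h3 : algebraMap K A (k - k')⁻¹ * algebraMap K A (k - k') = 1 := by
        rw [← map_mul, inv_mul_cancel₀ h1, map_one]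
      constructor
      · intro x hx
        have : x * algebraMap K A (k - k') * algebraMap K A (k - k')⁻¹ = 0 := by
          rw [hx, zero_mul]
        rwa [mul_assoc, h2, mul_one] at this
      · intro x hx
        have : algebraMap K A (k - k')⁻¹ * (algebraMap K A (k - k') * x) = 0 := by
          rw [hx, mul_zero]
        rwa [← mul_assoc, h3, one_mul] at this
    · intro f hf
      by_contra hne
      have hne' : ∀ i, ∃ w ∈ f i, w ≠ 0 := by
        intro i
        by_contra hi
        apply hne
        refine ⟨i, ?_⟩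
        rw [Submodule.eq_bot_iff]
        intro w hw
        by_contra hw0
        exact hi ⟨w, hw, hw0⟩
      choose w hw hw0 using hne'
      have hlin : LinearIndependent K w := by
        refine linInd hR ?_ f hf w hw hw0
        intro N k x hx
        have : k • x = op (algebraMap K A k) • x := by
          rw [op_smul_eq_mul, Algebra.smul_def, Algebra.commutes]
        rw [this]
        exact N.smul_mem _ hx
      have h1 := hlin.cardinal_le_rank
      have h2 := Cardinal.lift_le.{v}.2 h1
      rw [hcard] at h2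
      exact absurd hdim (not_lt.2 h2)

end Pool.Agent.Results.MP_64bfc7_al.RegularDifferences
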